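import Pool.Agent.H256R2.SC.V1
import Pool.Agent.H256R2.SC.V2
import Pool.Agent.H256R2.SC.J
import Pool.Agent.H256R2.SC.S
import Pool.Agent.H256R2.SC.L

set_option autoImplicit false
set_option linter.unusedSectionVars false

/-! # The covering theorem with a general lower limit `(log X)^a` of the sieving primes

This is `Pool.Agent.H256R2.SC.covering` (helper256 and team) with `(log X)^2` replaced by
`(log X)^a`, and accordingly with up to `(log X)^a / 2` exceptional primes. -/

namespace Pool.Agent.H454R3.UC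

open Finset Filter
open Pool.Agent.H256R2.SC

open scoped Classical

private lemma vaux1 (L : ℝ) (hL : 0 < L) : (2 / L) ^ 2 = 4 / L ^ 2 := by field_simp; norm_num
private lemma vaux2 (L : ℝ) (hL : 0 < L) : L * (5 / L ^ 2) = 5 / L := by field_simp
private lemma vaux3 (L : ℝ) (hL : 0 < L) : (L / 8) * (1 / L) = 1 / 8 := by field_simp

theorem covering_gen (a : ℕ) (ha : 2 ≤ a) : ∃ c : ℝ, 0 < c ∧ ∃ X₀ : ℝ, ∀ X : ℝ, X₀ ≤ X →
    ∀ (B : Finset ℕ), 2 * (B.card : ℝ) ≤ (Real.log X) ^ a →
    ∀ (κ : Type) [Fintype κ] [DecidableEq κ], (Fintype.card κ : ℝ) ≤ c * Real.log X →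
    ∀ (res : ℕ → κ → ℤ),
    (∀ p : ℕ, p.Prime → (Real.log X) ^ a < p → (p : ℝ) ≤ X ^ (1 / 1000 : ℝ) → p ∉ B →
      ∀ k l, k ≠ l → ¬ ((p : ℤ) ∣ res p k - res p l)) →
    ∀ (𝒜 : Finset ℤ) (N Err : ℝ), X ^ (1 / 2 : ℝ) ≤ N → 0 ≤ Err → Err ≤ X ^ (1 / 10 : ℝ) →
    (∀ q : ℕ, Squarefree q → (q : ℝ) ≤ X ^ (1 / 4 : ℝ) →
      (∀ p ∈ q.primeFactors, (Real.log X) ^ a < p ∧ p ∉ B) →
      ∀ r : ℤ, |((𝒜.filter (fun x => (q : ℤ) ∣ x - r)).card : ℝ) - N / q| ≤ Err) →
    ∃ x ∈ 𝒜, ∀ k : κ, ∃ p : ℕ, p.Prime ∧ (Real.log X) ^ a < p ∧ (p : ℝ) ≤ X ^ (1 / 1000 : ℝ) ∧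
      p ∉ B ∧ (p : ℤ) ∣ x - res p k := by
  obtain ⟨c₂, hc₂, hAl⟩ := A_lower
  obtain ⟨CM₀, hM₀⟩ := Pool.Agent.Helper256.KM.mertens_inv
  set CM : ℝ := max CM₀ 0 with hCM
  have hCM0 : 0 ≤ CM := le_max_right _ _
  have haR : (2 : ℝ) ≤ (a : ℝ) := by exact_mod_cast ha
  have ha0 : (0 : ℝ) < (a : ℝ) := by linarith
  set C₁ : ℝ := 2 / c₂ + 1 with hC₁
  have hC1' : 1 ≤ C₁ := by rw [hC₁]; have : 0 < 2 / c₂ := by positivity
                           linarith
  set C₀ : ℝ := a * C₁ with hC₀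
  have hC1 : 1 ≤ C₀ := by
    rw [hC₀]
    have e : (1:ℝ) * 1 ≤ (a : ℝ) * C₁ := mul_le_mul (by linarith) hC1' (by norm_num) (by linarith)
    linarith
  set c : ℝ := min (1 / 8) (c₂ / (3200 * a)) with hc
  have hc0 : 0 < c := lt_min (by norm_num) (by positivity)
  have hc8 : c ≤ 1 / 8 := min_le_left _ _
  have hcc : c ≤ c₂ / (3200 * a) := min_le_right _ _
  obtain ⟨L₀, hL₀⟩ := ev_facts C₀ CM
  refine ⟨c, hc0, Real.exp L₀, ?_⟩
  intro X hX B hB κ _ _ hκ res hres 𝒜 N Err hN hErr0 hErr hcount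
  have hX0 : 0 < X := lt_of_lt_of_le (Real.exp_pos _) hX
  set L : ℝ := Real.log X with hL
  have hXL : X = Real.exp L := (Real.exp_log hX0).symm
  have hLL : L₀ ≤ L := by
    rw [hL, ← Real.log_exp L₀]
    exact Real.log_le_log (Real.exp_pos _) hX
  obtain ⟨f1, f2, f3, f4, f5, f6⟩ := hL₀ L hLL
  obtain ⟨m, hm1, hm2, hm3⟩ := scales C₀ L hC1 f1 f3 f5
  set l : ℝ := Real.log L with hl
  have hl0 : 0 < l := by linarith
  have hLpos : 0 < L := by linarith
  have hLexp : L = Real.exp l := (Real.exp_log hLpos).symm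
  have hXr : ∀ s : ℝ, X ^ s = Real.exp (s * L) := by
    intro s
    rw [hXL, ← Real.exp_mul, mul_comm]
  set z₀ : ℝ := Real.exp (2 * C₀ * l) with hz₀
  set z : ℝ := z₀ ^ (2 ^ m) with hz
  have hlogz0 : Real.log z₀ = 2 * C₀ * l := Real.log_exp _
  have hz01 : 1 < z₀ := by rw [hz₀]; exact Real.one_lt_exp_iff.mpr (by positivity)
  have hlogzj : ∀ j : ℕ, Real.log (z₀ ^ (2 ^ j)) = (2:ℝ) ^ j * (2 * C₀ * l) := by
    intro j
    rw [Real.log_pow, hlogz0]
    push_cast
    ring
  have hlogz : Real.log z = (2:ℝ) ^ m * (2 * C₀ * l) := hlogzj m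
  have hzpos : 0 < z := by rw [hz]; positivity
  have hlz1 : Real.log z ≤ L / (1000 * l) := by rw [hlogz]; exact hm1
  have hlz2 : L / (2000 * l) ≤ Real.log z := by rw [hlogz]; exact hm2
  have hlzpos : 0 < Real.log z := lt_of_lt_of_le (by positivity) hlz2
  have hzexp : z = Real.exp (Real.log z) := (Real.exp_log hzpos).symm
  have hlzL : Real.log z ≤ L / 10000 := by
    refine hlz1.trans ?_
    apply div_le_div_of_nonneg_left hLpos.le (by norm_num)
    nlinarith
  have hz10 : z ≤ X ^ (1 / 1000 : ℝ) := by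
    rw [hzexp, hXr]
    apply Real.exp_le_exp.mpr
    linarith
  set y₁ : ℝ := L ^ a with hy₁
  have hyL2 : L ^ 2 ≤ y₁ := by
    rw [hy₁]
    exact pow_le_pow_right₀ (by linarith) ha
  have hL2 : (1000:ℝ) ≤ L ^ 2 := by
    have e : (1000:ℝ) * 1 ≤ L * L := mul_le_mul f5 (by linarith) (by norm_num) (by linarith)
    rw [sq]; linarith
  have hy1 : 3 ≤ y₁ := by linarith
  have hy0 : 0 < y₁ := by linarith
  have hyinv : 1 / y₁ ≤ 1 / L ^ 2 := one_div_le_one_div_of_le (by positivity) hyL2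
  have hlogy : Real.log y₁ = a * l := by rw [hy₁, Real.log_pow]
  have hBy : 2 * (B.card : ℝ) ≤ y₁ := hB
  -- the sieving primes
  set PP : Finset ℕ := PS y₁ z B with hPP
  have hPPmem : ∀ p ∈ PP, p.Prime ∧ y₁ < (p:ℝ) ∧ p ∉ B ∧ (p:ℝ) ≤ z := by
    intro p hp
    rw [hPP] at hp
    unfold PS at hp
    rw [Finset.mem_filter, Finset.mem_Icc] at hp
    refine ⟨hp.2.1, hp.2.2.1, hp.2.2.2, ?_⟩
    calc (p:ℝ) ≤ (⌊z⌋₊ : ℝ) := by exact_mod_cast hp.1.2
      _ ≤ z := Nat.floor_le hzpos.le
  have hPprime : ∀ p ∈ PP, p.Prime := fun p hp => (hPPmem p hp).1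
  have hinj : ∀ p ∈ PP, ∀ k l : κ, k ≠ l → ¬ ((p : ℤ) ∣ res p k - res p l) := by
    intro p hp
    obtain ⟨h1, h2, h3, h4⟩ := hPPmem p hp
    exact hres p h1 h2 (h4.trans hz10) h3
  set n : ℕ := PP.card with hn
  set P : Fin n → ℝ := fun i => ((emb PP i : ℕ) : ℝ) with hP
  set g : Fin n → ℝ := fun i => 1 / ((emb PP i : ℕ) : ℝ) with hg
  have hPy : ∀ i, y₁ < P i := fun i => (hPPmem _ (emb_mem PP i)).2.1
  have hPz : ∀ i, P i ≤ z := fun i => (hPPmem _ (emb_mem PP i)).2.2.2
  have hP1 : ∀ i, 1 < P i := fun i => by linarith [hPy i]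
  have hP0 : ∀ i, 0 < P i := fun i => by linarith [hPy i]
  have hg0 : ∀ i, 0 < g i := fun i => by
    have : g i = 1 / P i := rfl
    rw [this]
    exact div_pos one_pos (hP0 i)
  have hgP : ∀ i, g i = 1 / P i := fun i => rfl
  have hgy : ∀ i, g i ≤ 1 / y₁ := fun i => by
    rw [hgP]
    exact one_div_le_one_div_of_le (by linarith) (hPy i).le
  -- the profile
  set lam : ℝ := c₂ / (2 * a * l) with hlam
  have hlam0 : 0 < lam := by positivity
  have hA : ∀ j < m + 1, 1 ≤ Asum P g (z₀ ^ (2 ^ j)) ∧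
      lam * (2 ^ j * Real.log z₀) ≤ Asum P g (z₀ ^ (2 ^ j)) := by
    intro j hj
    have h1 : Asum P g (z₀ ^ (2 ^ j)) = _ := Asum_enum PP (z₀ ^ (2 ^ j))
    have hxl := hlogzj j
    have h2j : (1:ℝ) ≤ 2 ^ j := one_le_pow₀ (by norm_num)
    have hyx : y₁ ≤ z₀ ^ (2 ^ j) := by
      rw [← Real.log_le_log_iff (by linarith) (by positivity), hxl, hlogy]
      have e1 : (a : ℝ) * l ≤ 1 * (2 * C₀ * l) := by
        rw [hC₀]
        have : (a : ℝ) * l ≤ a * l * (2 * C₁) := by
          apply le_mul_of_one_le_right (by positivity)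
          linarith
        linarith
      have e2 : 1 * (2 * C₀ * l) ≤ (2:ℝ) ^ j * (2 * C₀ * l) :=
        mul_le_mul_of_nonneg_right h2j (by positivity)
      linarith
    have hxz : z₀ ^ (2 ^ j) ≤ z := by
      rw [hz]
      exact pow_le_pow_right₀ hz01.le (Nat.pow_le_pow_right (by norm_num) (by omega))
    have h2 := hAl y₁ z (z₀ ^ (2 ^ j)) B hy1 hyx hxz hBy
    have h3 : c₂ * Real.log (z₀ ^ (2 ^ j)) / Real.log y₁ = 2 * (c₂ * (2 ^ j * C₁)) := by
      rw [hxl, hlogy, hC₀]
      field_simp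
    rw [h3] at h2
    have h4 : c₂ * C₁ = 2 + c₂ := by
      rw [hC₁]
      field_simp
    have h5 : 2 * (c₂ * (2 ^ j * C₁)) - 1 ≤ Asum P g (z₀ ^ (2 ^ j)) := by
      rw [h1]
      exact h2
    have h6 : 2 ≤ c₂ * (2 ^ j * C₁) := by
      calc (2:ℝ) ≤ c₂ * C₁ := by linarith
        _ = c₂ * (1 * C₁) := by ring
        _ ≤ c₂ * (2 ^ j * C₁) := by
          apply mul_le_mul_of_nonneg_left _ hc₂.le
          apply mul_le_mul_of_nonneg_right h2j (by linarith)
    refine ⟨by linarith, ?_⟩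
    have h7 : lam * (2 ^ j * Real.log z₀) = c₂ * (2 ^ j * C₁) := by
      rw [hlam, hlogz0, hC₀]
      field_simp
    rw [h7]
    linarith
  obtain ⟨h, H⟩ := exists_h P g hP1 hg0 (m + 1) (by omega) z₀ lam hz01 hlam0 hA
  have hzz : z₀ ^ (2 ^ (m + 1 - 1)) = z := by rw [hz, Nat.add_sub_cancel]
  rw [hzz] at H
  set K : ℝ := 4 / (lam * ((m + 1 : ℕ) : ℝ)) with hK
  have hK16 : K ≤ 8 * a / c₂ := by
    rw [hK, div_le_div_iff₀ (by positivity) hc₂]
    have h1 : c₂ / (2 * a) ≤ lam * ((m + 1 : ℕ) : ℝ) := by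
      push_cast
      calc c₂ / (2 * a) = lam * l := by rw [hlam]; field_simp
        _ ≤ lam * (m + 1) := mul_le_mul_of_nonneg_left hm3 hlam0.le
    have h2 : 4 * c₂ = 8 * a * (c₂ / (2 * a)) := by field_simp; norm_num
    rw [h2]
    exact mul_le_mul_of_nonneg_left h1 (by positivity)
  have hK0 : 0 ≤ K := H.K0
  set u : ℝ := (Fintype.card κ : ℝ) with hu
  have hu0 : 0 ≤ u := Nat.cast_nonneg _
  have huL : u ≤ L / 8 := by nlinarith
  -- the sum of the reciprocals
  have hG : ∑ i, g i ≤ l + CM := by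
    have h1 : ∑ i, g i = ∑ p ∈ PP, 1 / (p:ℝ) := by
      have : PP = univ.map (emb PP) := by
        ext p
        rw [Finset.mem_map]
        constructor
        · intro hp
          obtain ⟨i, hi⟩ := emb_surj PP hp
          exact ⟨i, Finset.mem_univ _, hi⟩
        · rintro ⟨i, _, rfl⟩
          exact emb_mem PP i
      conv_rhs => rw [this]
      rw [Finset.sum_map]
    have hz3 : 3 ≤ ⌊z⌋₊ := by
      apply Nat.le_floor
      push_cast
      have e1 : (2:ℝ) ≤ Real.log z := by
        refine le_trans ?_ hlz2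
        rw [le_div_iff₀ (by positivity)]
        -- 4000 l ≤ L
        have e2 : 2000 * 1 * l ^ 2 ≤ L ^ (3 / 10 : ℝ) := by
          refine le_trans ?_ f3
          nlinarith [sq_nonneg l]
        have e3 : L ^ (3 / 10 : ℝ) ≤ L := by
          calc L ^ (3 / 10 : ℝ) ≤ L ^ (1:ℝ) :=
                Real.rpow_le_rpow_of_exponent_le (by linarith) (by norm_num)
            _ = L := Real.rpow_one L
        nlinarith
      have e4 : Real.exp 2 ≤ z := by
        rw [hzexp]; exact Real.exp_le_exp.mpr e1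
      have e5 : (3:ℝ) ≤ Real.exp 2 := by
        have := Real.add_one_le_exp (2:ℝ); linarith
      linarith
    have h2 := (abs_le.mp (hM₀ ⌊z⌋₊ hz3)).2
    have h3 : ∑ p ∈ PP, 1 / (p:ℝ) ≤ ∑ p ∈ (Finset.Icc 1 ⌊z⌋₊).filter Nat.Prime, (1 : ℝ) / p := by
      apply Finset.sum_le_sum_of_subset_of_nonneg
      · intro p hp
        rw [hPP] at hp
        unfold PS at hp
        rw [Finset.mem_filter] at hp ⊢
        exact ⟨hp.1, hp.2.1⟩
      · intro p _ _
        positivity
    have h4 : Real.log (Real.log (⌊z⌋₊ : ℝ)) ≤ l := by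
      have e1 : (3:ℝ) ≤ (⌊z⌋₊ : ℝ) := by exact_mod_cast hz3
      have e2 : Real.log (⌊z⌋₊ : ℝ) ≤ L := by
        have : Real.log (⌊z⌋₊ : ℝ) ≤ Real.log z :=
          Real.log_le_log (by linarith) (Nat.floor_le hzpos.le)
        linarith
      rw [hl]
      exact Real.log_le_log (Real.log_pos (by linarith)) e2
    rw [h1]
    have := le_max_left CM₀ 0
    linarith
  have hGn : 0 ≤ ∑ i, g i := Finset.sum_nonneg (fun i _ => (hg0 i).le)
  -- parameters
  set Q : ℝ := Real.exp (L / 40) with hQ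
  set J : ℕ := 2 * ⌈11 * l⌉₊ with hJ
  have hJ1 : 22 * l ≤ (J:ℝ) := by
    have := Nat.le_ceil (11 * l)
    rw [hJ]; push_cast; linarith
  have hJ2 : (J:ℝ) ≤ 23 * l := by
    have := Nat.ceil_lt_add_one (show 0 ≤ 11 * l by positivity)
    rw [hJ]; push_cast; linarith
  have hJe : Even J := ⟨⌈11 * l⌉₊, by rw [hJ]; ring⟩
  have hQ1 : 1 ≤ Q := Real.one_le_exp (by positivity)
  have hzJ : z ^ J ≤ Real.exp (23 * L / 1000) := by
    rw [hzexp, ← Real.exp_nat_mul]
    apply Real.exp_le_exp.mpr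
    calc (J:ℝ) * Real.log z ≤ (23 * l) * (L / (1000 * l)) :=
          mul_le_mul hJ2 hlz1 hlzpos.le (by positivity)
      _ = 23 * L / 1000 := by field_simp
  -- sizes of supports
  have hsupp : ∀ D : Col n κ, qq P D ≤ Q → ((supp D).card : ℝ) ≤ L / 40 := by
    intro D hD
    have h1 : Real.exp ((supp D).card : ℝ) ≤ qq P D := by
      unfold qq
      rw [prod_nu1]
      have : Real.exp ((supp D).card : ℝ) = ∏ i ∈ supp D, Real.exp 1 := by
        rw [Finset.prod_const, ← Real.exp_nat_mul, mul_one]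
      rw [this]
      apply Finset.prod_le_prod
      · intro i _; exact (Real.exp_pos _).le
      · intro i _
        have := Real.exp_one_lt_d9
        linarith [hPy i]
    have h2 := h1.trans hD
    rw [hQ] at h2
    exact Real.exp_le_exp.mp h2
  have hδ : ∀ D : Col n κ, qq P D ≤ Q → 2 * ∑ i with D i ≠ none, g i ≤ 2 / L := by
    intro D hD
    have h1 : ∑ i with D i ≠ none, g i ≤ (supp D).card * (1 / y₁) := by
      have : ∑ i ∈ supp D, g i ≤ ∑ i ∈ supp D, (1 / y₁) := Finset.sum_le_sum (fun i _ => hgy i)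
      rw [Finset.sum_const, nsmul_eq_mul] at this
      exact this
    have h2 := hsupp D hD
    have h3 : ((supp D).card : ℝ) * (1 / y₁) ≤ L / 40 * (1 / L ^ 2) :=
      mul_le_mul h2 hyinv (by positivity) (by positivity)
    have h4 : L / 40 * (1 / L ^ 2) = 1 / (40 * L) := by field_simp
    have h5 : 1 / (40 * L) ≤ 1 / L := by
      apply one_div_le_one_div_of_le hLpos
      linarith
    have h6 : 2 / L = 2 * (1 / L) := by ring
    rw [h6]
    linarith
  -- the count
  have hevent : ∀ D : Col n κ, qq P D ≤ Q ^ 2 * z ^ J →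
      |((𝒜.filter (fun a => ∀ i, D i ≠ none → colr PP res a i = D i)).card : ℝ) - N * nu g D| ≤
        Err := by
    intro D hD
    obtain ⟨r, hr⟩ := event_iff hPprime hinj D
    have h1 : (𝒜.filter (fun a => ∀ i, D i ≠ none → colr PP res a i = D i)) =
        𝒜.filter (fun a => ((qn PP D : ℕ) : ℤ) ∣ a - r) := by
      apply Finset.filter_congr
      intro a _
      exact hr a
    rw [h1]
    have h2 : nu g D = 1 / ((qn PP D : ℕ) : ℝ) := nu_eq PP D
    rw [h2, mul_one_div]
    apply hcount (qn PP D) (qn_squarefree hPprime D)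
    · rw [qn_cast]
      refine le_trans hD ?_
      rw [hXr]
      calc Q ^ 2 * z ^ J ≤ Real.exp (L / 40) ^ 2 * Real.exp (23 * L / 1000) :=
            mul_le_mul_of_nonneg_left hzJ (by positivity)
        _ = Real.exp (L / 20 + 23 * L / 1000) := by
            rw [← Real.exp_nat_mul, ← Real.exp_add]
            congr 1
            push_cast
            ring
        _ ≤ Real.exp (1 / 4 * L) := Real.exp_le_exp.mpr (by linarith)
    · intro p hp
      have := hPPmem p (qn_primeFactors hPprime D hp)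
      exact ⟨this.2.1, this.2.2.1⟩
  have hn1 : (n:ℝ) + 1 ≤ z := by
    have h1 : PP ⊆ Finset.Icc 2 ⌊z⌋₊ := by
      intro p hp
      have hp' := hp
      rw [hPP] at hp'
      unfold PS at hp'
      rw [Finset.mem_filter, Finset.mem_Icc] at hp'
      rw [Finset.mem_Icc]
      exact ⟨hp'.2.1.two_le, hp'.1.2⟩
    have h2 := Finset.card_le_card h1
    rw [Nat.card_Icc] at h2
    have h3 : 1 ≤ ⌊z⌋₊ := Nat.le_floor (by
      push_cast
      have : Real.exp 0 ≤ z := by rw [hzexp]; exact Real.exp_le_exp.mpr hlzpos.le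
      simpa using this)
    have h4 : n + 1 ≤ ⌊z⌋₊ := by
      rw [hn]
      omega
    calc (n:ℝ) + 1 ≤ (⌊z⌋₊ : ℝ) := by exact_mod_cast h4
      _ ≤ z := Nat.floor_le hzpos.le
  have hNpos : 0 < N := lt_of_lt_of_le (Real.rpow_pos_of_pos hX0 _) hN
  -- apply the core theorem
  have hL8 : (80:ℝ) ≤ L := by linarith
  obtain ⟨x₁, hx₁, hcov⟩ := core (κ := κ) 𝒜 (colr PP res) H Q (2 / L) 3 N Err J hJe (by norm_num)
    hNpos hErr0 hQ1 hPz
    (fun i => by
      have h1 : (1:ℝ) / y₁ ≤ 1 := by rw [div_le_one (by linarith)]; linarith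
      exact (hgy i).trans h1)
    (fun i => by
      have h1 : (1:ℝ) / y₁ ≤ 1 / 9 := one_div_le_one_div_of_le (by norm_num) (by linarith)
      have := hgy i
      linarith)
    (fun i => by
      have h1 : u * g i ≤ (L / 8) * (1 / L ^ 2) :=
        mul_le_mul huL ((hgy i).trans hyinv) (hg0 i).le (by positivity)
      have h2 : (L / 8) * (1 / L ^ 2) = 1 / (8 * L) := by field_simp
      have h3 : 1 / (8 * L) ≤ 1 := by rw [div_le_one (by positivity)]; linarith
      linarith)
    hδ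
    (by
      have : u * (2 / L) ≤ (L / 8) * (2 / L) := mul_le_mul_of_nonneg_right huL (by positivity)
      have e : (L / 8) * (2 / L) = 1 / 4 := by field_simp; norm_num
      linarith)
    (by
      have h1 : ∑ i, 1 / (P i) ^ 2 ≤ (1 / y₁) * ∑ i, g i := by
        rw [Finset.mul_sum]
        apply Finset.sum_le_sum
        intro i _
        have : 1 / (P i) ^ 2 = g i * g i := by rw [hgP]; field_simp
        rw [this]
        exact mul_le_mul_of_nonneg_right (hgy i) (hg0 i).le
      have h2 : (1 / y₁) * ∑ i, g i ≤ (1 / L ^ 2) * (2 * L) := by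
        apply mul_le_mul hyinv (by linarith) hGn (by positivity)
      have h3 : (1 / L ^ 2) * (2 * L) = 2 / L := by field_simp
      have h4 : 2 * u * ∑ i, 1 / (P i) ^ 2 ≤ 2 * (L / 8) * (2 / L) := by
        apply mul_le_mul _ (by linarith) (Finset.sum_nonneg (fun i _ => by positivity))
          (by positivity)
        linarith
      have e : 2 * (L / 8) * (2 / L) = 1 / 2 := by field_simp; norm_num
      linarith)
    (by
      have h1 : 2 * u * K / Real.log z ≤ 10 * l := by
        rw [div_le_iff₀ hlzpos]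
        have e1 : 2 * u * K ≤ 2 * (c * L) * (8 * a / c₂) := by
          apply mul_le_mul (by linarith) hK16 hK0 (by positivity)
        have e2 : 2 * (c * L) * (8 * a / c₂) ≤ L / 200 := by
          have : c * (8 * a / c₂) ≤ 1 / 400 := by
            calc c * (8 * a / c₂) ≤ c₂ / (3200 * a) * (8 * a / c₂) :=
                  mul_le_mul_of_nonneg_right hcc (by positivity)
              _ = 1 / 400 := by field_simp; norm_num
          nlinarith
        have e3 : L / 200 = 10 * l * (L / (2000 * l)) := by field_simp; norm_num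
        have e4 : 10 * l * (L / (2000 * l)) ≤ 10 * l * Real.log z :=
          mul_le_mul_of_nonneg_left hlz2 (by positivity)
        linarith
      have h2 : 25 * l - 1 ≤ Real.log (Q / z) / Real.log z := by
        rw [Real.log_div (by positivity) hzpos.ne', hQ, Real.log_exp, sub_div, div_self hlzpos.ne']
        have : 25 * l ≤ L / 40 / Real.log z := by
          rw [le_div_iff₀ hlzpos]
          calc 25 * l * Real.log z ≤ 25 * l * (L / (1000 * l)) :=
                mul_le_mul_of_nonneg_left hlz1 (by positivity)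
            _ = L / 40 := by field_simp; norm_num
        linarith
      have h3 : Real.exp (2 * u * K / Real.log z - Real.log (Q / z) / Real.log z) ≤ 1 / L ^ 2 := by
        have e1 : (1:ℝ) / L ^ 2 = Real.exp (-(2 * l)) := by
          rw [Real.exp_neg, hLexp, ← Real.exp_nat_mul]
          push_cast
          rw [one_div]
        rw [e1]
        apply Real.exp_le_exp.mpr
        linarith
      have h4 : (u + 1) * ((2 / L) ^ 2 + Real.exp (2 * u * K / Real.log z -
          Real.log (Q / z) / Real.log z)) ≤ L * (5 / L ^ 2) := by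
        apply mul_le_mul (by linarith) _ (by positivity) hLpos.le
        have : (2 / L) ^ 2 = 4 / L ^ 2 := vaux1 L hLpos
        rw [this]
        have e : (5:ℝ) / L ^ 2 = 4 / L ^ 2 + 1 / L ^ 2 := by ring
        rw [e]
        linarith
      have h5 : L * (5 / L ^ 2) = 5 / L := vaux2 L hLpos
      have h6 : 5 / L ≤ 1 / 8 := by rw [div_le_div_iff₀ hLpos (by norm_num)]; linarith
      linarith)
    (by
      have h1 : (1 / (3:ℝ)) ^ J ≤ Real.exp (-(22 * l)) := by
        have e1 : (1 / (3:ℝ)) = Real.exp (-(Real.log 3)) := by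
          rw [Real.exp_neg, Real.exp_log (by norm_num)]; norm_num
        rw [e1, ← Real.exp_nat_mul]
        apply Real.exp_le_exp.mpr
        have e2 : (1:ℝ) ≤ Real.log 3 := by
          rw [Real.le_log_iff_exp_le (by norm_num)]
          have := Real.exp_one_lt_d9
          linarith
        have e3 : 22 * l ≤ J * Real.log 3 := by nlinarith
        linarith
      have h2 : Real.exp ((2 + 6 * 3) * ∑ i, g i) ≤ Real.exp (21 * l) := by
        apply Real.exp_le_exp.mpr
        linarith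
      have h3 : (1 / (3:ℝ)) ^ J * Real.exp ((2 + 6 * 3) * ∑ i, g i) ≤ 1 / L := by
        calc (1 / (3:ℝ)) ^ J * Real.exp ((2 + 6 * 3) * ∑ i, g i)
            ≤ Real.exp (-(22 * l)) * Real.exp (21 * l) :=
              mul_le_mul h1 h2 (Real.exp_pos _).le (Real.exp_pos _).le
          _ = Real.exp (-l) := by rw [← Real.exp_add]; congr 1; ring
          _ = 1 / L := by rw [Real.exp_neg, ← hLexp, one_div]
      calc u * (1 / (3:ℝ)) ^ J * Real.exp ((2 + 6 * 3) * ∑ i, g i)
          = u * ((1 / (3:ℝ)) ^ J * Real.exp ((2 + 6 * 3) * ∑ i, g i)) := by ring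
        _ ≤ (L / 8) * (1 / L) := mul_le_mul huL h3 (by positivity) (by positivity)
        _ = 1 / 8 := vaux3 L hLpos)
    hevent
    (by
      rw [hXr] at hErr hN
      have hn0 : (0:ℝ) ≤ (n:ℝ) + 1 := add_nonneg (Nat.cast_nonneg n) zero_le_one
      have hnJ0 : (0:ℝ) ≤ ((n:ℝ) + 1) ^ J := pow_nonneg hn0 J
      have h1 : ((n:ℝ) + 1) ^ J ≤ Real.exp (23 * L / 1000) :=
        (pow_le_pow_left₀ hn0 hn1 J).trans hzJ
      have h2 : u * ((n:ℝ) + 1) ^ J ≤ Real.exp (L / 100) * Real.exp (23 * L / 1000) :=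
        mul_le_mul (by linarith) h1 hnJ0 (Real.exp_pos _).le
      have h3 : (1:ℝ) ≤ Real.exp (33 * L / 1000) := Real.one_le_exp (by positivity)
      have h4 : 1 + u * ((n:ℝ) + 1) ^ J ≤ 2 * Real.exp (33 * L / 1000) := by
        have : Real.exp (L / 100) * Real.exp (23 * L / 1000) = Real.exp (33 * L / 1000) := by
          rw [← Real.exp_add]; congr 1; ring
        linarith
      have h5 : Q ^ 4 = Real.exp (L / 10) := by
        rw [hQ, ← Real.exp_nat_mul]; congr 1; push_cast; ring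
      have h6 : Err * (9 * Q ^ 4 * (1 + u * ((n:ℝ) + 1) ^ J)) ≤
          Real.exp (1 / 10 * L) * (9 * Real.exp (L / 10) * (2 * Real.exp (33 * L / 1000))) := by
        rw [h5]
        have h50 : (0:ℝ) ≤ 9 * Real.exp (L / 10) :=
          mul_nonneg (by norm_num) (Real.exp_pos _).le
        have h51 : (0:ℝ) ≤ 1 + u * ((n:ℝ) + 1) ^ J := add_nonneg zero_le_one (mul_nonneg hu0 hnJ0)
        exact mul_le_mul hErr (mul_le_mul_of_nonneg_left h4 h50) (mul_nonneg h50 h51)
          (Real.exp_pos _).le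
      have h7 : Real.exp (1 / 10 * L) * (9 * Real.exp (L / 10) * (2 * Real.exp (33 * L / 1000))) =
          18 * Real.exp (233 * L / 1000) := by
        have : Real.exp (1 / 10 * L) * Real.exp (L / 10) * Real.exp (33 * L / 1000) =
            Real.exp (233 * L / 1000) := by
          rw [← Real.exp_add, ← Real.exp_add]; congr 1; ring
        calc _ = 18 * (Real.exp (1 / 10 * L) * Real.exp (L / 10) * Real.exp (33 * L / 1000)) := by
              ring
          _ = _ := by rw [this]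
      have h8 : 18 * Real.exp (233 * L / 1000) < Real.exp (1 / 2 * L) / 8 := by
        have e1 : Real.exp (1 / 2 * L) = Real.exp (233 * L / 1000) * Real.exp (267 * L / 1000) := by
          rw [← Real.exp_add]; congr 1; ring
        have e2 : (144:ℝ) < Real.exp (267 * L / 1000) := by
          have := Real.add_one_le_exp (267 * L / 1000)
          linarith
        rw [e1]
        have := Real.exp_pos (233 * L / 1000)
        nlinarith
      have h9 : Real.exp (1 / 2 * L) / 8 ≤ N / 8 := by linarith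
      linarith)
  refine ⟨x₁, hx₁, fun k => ?_⟩
  obtain ⟨i, hi⟩ := hcov k
  have h1 := (colr_eq hinj x₁ i k).mp hi
  have h2 := hPPmem _ (emb_mem PP i)
  exact ⟨emb PP i, h2.1, h2.2.1, h2.2.2.2.trans hz10, h2.2.2.1, h1⟩

end Pool.Agent.H454R3.UC
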