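import Mathlib
import Pool.Agent.Helper256.KM.Mertens

set_option autoImplicit false

/-! # Preparations for prime-free translates of arbitrary sets -/

namespace Pool.Agent.H454R3.UC

open Finset

theorem count_Ioc (a b : ℤ) (hab : a ≤ b) (q : ℕ) (hq : 0 < q) (r : ℤ) :
    |((((Ioc a b).filter (fun x => (q : ℤ) ∣ x - r)).card : ℕ) : ℝ) - ((b : ℝ) - a) / q| ≤ 1 := by
  have hq' : (0 : ℤ) < (q : ℤ) := by exact_mod_cast hq
  have h1 := Int.Ioc_filter_modEq_card a b hq' r
  have h2 : (Ioc a b).filter (fun x => (q : ℤ) ∣ x - r) =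
      (Ioc a b).filter (fun x => x ≡ r [ZMOD q]) := by
    refine filter_congr fun x _ => ?_
    rw [Int.modEq_comm, Int.modEq_iff_dvd]
  rw [h2]
  have hqQ : (0 : ℚ) < q := by exact_mod_cast hq
  have hmono : ⌊((a : ℚ) - r) / ((q : ℤ) : ℚ)⌋ ≤ ⌊((b : ℚ) - r) / ((q : ℤ) : ℚ)⌋ := by
    apply Int.floor_le_floor
    have : (a : ℚ) ≤ b := by exact_mod_cast hab
    push_cast
    gcongr
  rw [max_eq_left (by linarith)] at h1
  have h3 : ((((Ioc a b).filter (fun x => x ≡ r [ZMOD q])).card : ℕ) : ℚ) =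
      ((⌊((b : ℚ) - r) / ((q : ℤ) : ℚ)⌋ - ⌊((a : ℚ) - r) / ((q : ℤ) : ℚ)⌋ : ℤ) : ℚ) := by
    rw [← h1]
    simp
  have h4 : |((((Ioc a b).filter (fun x => x ≡ r [ZMOD q])).card : ℕ) : ℚ) -
      ((b : ℚ) - a) / q| ≤ 1 := by
    rw [h3]
    have e1 := Int.floor_le (((b : ℚ) - r) / ((q : ℤ) : ℚ))
    have e2 := Int.lt_floor_add_one (((b : ℚ) - r) / ((q : ℤ) : ℚ))
    have e3 := Int.floor_le (((a : ℚ) - r) / ((q : ℤ) : ℚ))
    have e4 := Int.lt_floor_add_one (((a : ℚ) - r) / ((q : ℤ) : ℚ))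
    have e5 : ((b : ℚ) - a) / q = ((b : ℚ) - r) / ((q : ℤ) : ℚ) - ((a : ℚ) - r) / ((q : ℤ) : ℚ) := by
      push_cast
      ring
    rw [e5, abs_le]
    push_cast
    push_cast at e1 e2 e3 e4
    constructor <;> linarith
  have h5 : ((|((((Ioc a b).filter (fun x => x ≡ r [ZMOD q])).card : ℕ) : ℚ) -
      ((b : ℚ) - a) / q| : ℚ) : ℝ) ≤ ((1 : ℚ) : ℝ) := by exact_mod_cast h4
  push_cast at h5
  exact h5

/-- counting the integers of an interval in a class mod `P` and a class mod `q` -/
theorem count_two (A B : ℤ) (hAB : A ≤ B) (P q : ℕ) (hP : 0 < P) (hq : 0 < q)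
    (hc : Nat.Coprime P q) (b r : ℤ) :
    |((((Ioc A B).filter (fun x => (P : ℤ) ∣ x - b)).filter (fun x => (q : ℤ) ∣ x - r)).card : ℝ) -
      (((B : ℝ) - A) / P) / q| ≤ 1 := by
  have hcop : IsCoprime (P : ℤ) (q : ℤ) := Nat.isCoprime_iff_coprime.mpr hc
  obtain ⟨u, v, huv⟩ := hcop
  set c : ℤ := b + P * u * (r - b) with hcdef
  have h1 : (((Ioc A B).filter (fun x => (P : ℤ) ∣ x - b)).filter (fun x => (q : ℤ) ∣ x - r)) =
      (Ioc A B).filter (fun x => ((P * q : ℕ) : ℤ) ∣ x - c) := by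
    rw [Finset.filter_filter]
    apply Finset.filter_congr
    intro x _
    push_cast
    constructor
    · rintro ⟨h2, h3⟩
      apply IsCoprime.mul_dvd (Nat.isCoprime_iff_coprime.mpr hc)
      · have e : x - c = (x - b) - P * (u * (r - b)) := by rw [hcdef]; ring
        rw [e]
        exact dvd_sub h2 (dvd_mul_right _ _)
      · have e : x - c = (x - r) + q * (v * (r - b)) := by
          rw [hcdef]
          linear_combination (-(r - b)) * huv
        rw [e]
        exact dvd_add h3 (dvd_mul_right _ _)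
    · intro h2
      have hP' : (P : ℤ) ∣ x - c := (dvd_mul_right _ _).trans h2
      have hq' : (q : ℤ) ∣ x - c := (dvd_mul_left _ _).trans h2
      constructor
      · have e : x - b = (x - c) + P * (u * (r - b)) := by rw [hcdef]; ring
        rw [e]
        exact dvd_add hP' (dvd_mul_right _ _)
      · have e : x - r = (x - c) - q * (v * (r - b)) := by
          rw [hcdef]
          linear_combination (r - b) * huv
        rw [e]
        exact dvd_sub hq' (dvd_mul_right _ _)
  rw [h1]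
  have h2 := count_Ioc A B hAB (P * q) (Nat.mul_pos hP hq) c
  have e : (((B : ℝ) - A) / P) / q = ((B : ℝ) - A) / ((P * q : ℕ) : ℝ) := by
    push_cast
    rw [div_div]
  rw [e]
  exact h2

/-- the number of `a < P` with `a + s` coprime to `P` is `φ(P)` -/
theorem count_coprime (P : ℕ) (hP : 0 < P) (s : ℤ) :
    ((range P).filter (fun a : ℕ => Int.gcd ((a : ℤ) + s) P = 1)).card = Nat.totient P := by
  have hP' : (P : ℤ) ≠ 0 := by exact_mod_cast hP.ne'
  set t : ℕ := (s % P).toNat with ht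
  have ht' : (t : ℤ) = s % P := Int.toNat_of_nonneg (Int.emod_nonneg _ hP')
  rw [← Nat.filter_coprime_Ico_eq_totient P t]
  refine Finset.card_bij (fun a _ => t + a) ?_ ?_ ?_
  · intro a ha
    rw [Finset.mem_filter, Finset.mem_range] at ha
    rw [Finset.mem_filter, Finset.mem_Ico]
    refine ⟨by omega, ?_⟩
    have h1 : Int.gcd ((a : ℤ) + s) P = Nat.gcd (t + a) P := by
      have e : (a : ℤ) + s = ((t + a : ℕ) : ℤ) + P * (s / P) := by
        push_cast
        rw [ht']
        have := Int.emod_add_mul_ediv s P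
        linarith
      rw [e, Int.gcd_add_mul_left_left]
      exact Int.gcd_natCast_natCast _ _
    rw [h1] at ha
    exact (Nat.coprime_comm).mp ha.2
  · intro a _ b _ h
    simpa using h
  · intro b hb
    rw [Finset.mem_filter, Finset.mem_Ico] at hb
    refine ⟨b - t, ?_, by omega⟩
    rw [Finset.mem_filter, Finset.mem_range]
    refine ⟨by omega, ?_⟩
    have h1 : Int.gcd (((b - t : ℕ) : ℤ) + s) P = Nat.gcd b P := by
      have e : ((b - t : ℕ) : ℤ) + s = (b : ℤ) + P * (s / P) := by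
        rw [Nat.cast_sub hb.1.1, ht']
        have := Int.emod_add_mul_ediv s P
        linarith
      rw [e, Int.gcd_add_mul_left_left]
      exact Int.gcd_natCast_natCast _ _
    rw [h1]
    exact (Nat.coprime_comm).mp hb.2

/-- averaging: a class `a` mod `P` for which few `a + s` are coprime to `P` -/
theorem exists_class (P : ℕ) (hP : 0 < P) (S : Finset ℤ) :
    ∃ a : ℤ, ((S.filter (fun s => Int.gcd (a + s) P = 1)).card : ℝ) * P ≤
      (S.card : ℝ) * Nat.totient P := by
  have hsum : ∑ a ∈ range P, (S.filter (fun s => Int.gcd ((a : ℤ) + s) P = 1)).card =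
      S.card * Nat.totient P := by
    simp only [Finset.card_filter]
    rw [Finset.sum_comm]
    have : ∀ s ∈ S, ∑ a ∈ range P, (if Int.gcd ((a : ℤ) + s) P = 1 then 1 else 0) =
        Nat.totient P := by
      intro s _
      rw [← Finset.card_filter]
      exact count_coprime P hP s
    rw [Finset.sum_congr rfl this]
    simp
  have hne : (range P).Nonempty := ⟨0, Finset.mem_range.mpr hP⟩
  have hle : ∑ a ∈ range P, ((S.filter (fun s => Int.gcd ((a : ℤ) + s) P = 1)).card : ℝ) * P ≤
      ∑ _a ∈ range P, (S.card : ℝ) * Nat.totient P := by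
    rw [← Finset.sum_mul, Finset.sum_const, Finset.card_range, nsmul_eq_mul]
    have : (∑ a ∈ range P, ((S.filter (fun s => Int.gcd ((a : ℤ) + s) P = 1)).card : ℝ)) =
        (S.card : ℝ) * Nat.totient P := by exact_mod_cast hsum
    rw [this]
    apply le_of_eq
    ring
  obtain ⟨a, _, ha⟩ := Finset.exists_le_of_sum_le hne hle
  exact ⟨a, ha⟩

theorem primeFactors_primorial (N : ℕ) :
    (primorial N).primeFactors = (Finset.Icc 1 N).filter Nat.Prime := by
  ext p
  rw [Nat.mem_primeFactors, Finset.mem_filter, Finset.mem_Icc]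
  constructor
  · rintro ⟨hp, hd, _⟩
    unfold primorial at hd
    rw [hp.prime.dvd_finset_prod_iff] at hd
    obtain ⟨q, hq, hpq⟩ := hd
    rw [Finset.mem_filter, Finset.mem_range] at hq
    have : p = q := (Nat.prime_dvd_prime_iff_eq hp hq.2).mp hpq
    subst this
    exact ⟨⟨hp.one_lt.le, by omega⟩, hp⟩
  · rintro ⟨⟨_, h2⟩, hp⟩
    refine ⟨hp, ?_, (primorial_pos N).ne'⟩
    unfold primorial
    exact Finset.dvd_prod_of_mem _ (Finset.mem_filter.mpr ⟨Finset.mem_range.mpr (by omega), hp⟩)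

/-- Mertens: `φ(P)/P ≤ C / log N` for the primorial `P` of `N` -/
theorem mertens_tot : ∃ C : ℝ, 0 < C ∧ ∀ N : ℕ, 3 ≤ N →
    (Nat.totient (primorial N) : ℝ) ≤ C / Real.log N * primorial N := by
  obtain ⟨C, hC⟩ := Pool.Agent.Helper256.KM.mertens_inv
  refine ⟨Real.exp C, Real.exp_pos _, fun N hN => ?_⟩
  have h1 := (abs_le.mp (hC N hN)).1
  have h2 : (Nat.totient (primorial N) : ℝ) =
      primorial N * ∏ p ∈ (primorial N).primeFactors, (1 - (p : ℝ)⁻¹) := by
    have h3 := congrArg (fun x : ℚ => (x : ℝ)) (Nat.totient_eq_mul_prod_factors (primorial N))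
    push_cast at h3
    exact h3
  rw [h2, mul_comm]
  apply mul_le_mul_of_nonneg_right _ (Nat.cast_nonneg _)
  rw [primeFactors_primorial]
  have hN1 : (1 : ℝ) < N := by exact_mod_cast (by omega : 1 < N)
  have hlog : 0 < Real.log N := Real.log_pos hN1
  calc ∏ p ∈ (Finset.Icc 1 N).filter Nat.Prime, (1 - (p : ℝ)⁻¹)
      ≤ ∏ p ∈ (Finset.Icc 1 N).filter Nat.Prime, Real.exp (-(1 / (p : ℝ))) := by
        apply Finset.prod_le_prod
        · intro p hp
          have hp1 : (1 : ℝ) ≤ p := by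
            exact_mod_cast (Finset.mem_filter.mp hp).2.one_lt.le
          have : (p : ℝ)⁻¹ ≤ 1 := inv_le_one_of_one_le₀ hp1
          linarith
        · intro p _
          have := Real.add_one_le_exp (-(1 / (p : ℝ)))
          rw [one_div] at this ⊢
          linarith
    _ = Real.exp (-(∑ p ∈ (Finset.Icc 1 N).filter Nat.Prime, (1 : ℝ) / p)) := by
        rw [← Real.exp_sum, Finset.sum_neg_distrib]
    _ ≤ Real.exp (C - Real.log (Real.log N)) := by
        apply Real.exp_le_exp.mpr
        linarith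
    _ = Real.exp C / Real.log N := by
        rw [Real.exp_sub, Real.exp_log hlog]

theorem card_primeFactors_le (d : ℕ) : (d.primeFactors.card : ℝ) * Real.log 2 ≤ Real.log d ∨
    d = 0 := by
  by_cases hd : d = 0
  · right; exact hd
  left
  have h1 : 2 ^ d.primeFactors.card ≤ d := by
    calc 2 ^ d.primeFactors.card ≤ ∏ p ∈ d.primeFactors, p :=
          Finset.pow_card_le_prod _ _ _ (fun p hp => (Nat.prime_of_mem_primeFactors hp).two_le)
      _ ≤ d := Nat.le_of_dvd (Nat.pos_of_ne_zero hd) (Nat.prod_primeFactors_dvd d)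
  have h2 : ((2 : ℝ)) ^ d.primeFactors.card ≤ d := by exact_mod_cast h1
  have h3 := Real.log_le_log (by positivity) h2
  rwa [Real.log_pow] at h3

end Pool.Agent.H454R3.UC
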