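import Pool.Agent.H454R3.UC.Cov
import Pool.Agent.H454R3.UC.Pre

set_option autoImplicit false

/-! # Prime-free translates of arbitrary sets of `c log X log log X` integers (helper454) -/

namespace Pool.Agent.H454R3.UC

open Finset Filter

/-- the facts about large `L = log X` which are used -/
theorem ev (A : ℕ) : ∃ L₀ : ℝ, ∀ L : ℝ, L₀ ≤ L →
    1000 ≤ L ∧ 3 * L ^ 2 * Real.exp (L / 1000) + 1 ≤ Real.exp (L / 10) ∧ Real.log L ≤ L ∧
      1 ≤ Real.log L ∧ Real.exp (L / 1000) ≥ L := by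
  have h2 : ∀ᶠ L : ℝ in atTop, 3 * L ^ 2 + 1 ≤ Real.exp (L / 100) := by
    have e1 : (fun x : ℝ => x ^ 2) =o[atTop] fun x : ℝ => Real.exp ((1 / 100 : ℝ) * x) :=
      isLittleO_pow_exp_pos_mul_atTop 2 (by norm_num)
    have e2 := e1.def (show (0 : ℝ) < 1 / 4 by norm_num)
    filter_upwards [e2, eventually_ge_atTop (1 : ℝ)] with L h3 h4
    rw [Real.norm_of_nonneg (by positivity), Real.norm_of_nonneg (Real.exp_pos _).le] at h3
    have e3 : (1 / 100 : ℝ) * L = L / 100 := by ring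
    rw [e3] at h3
    nlinarith
  have h5 : ∀ᶠ L : ℝ in atTop, L ≤ Real.exp (L / 1000) := by
    have e1 : (fun x : ℝ => x ^ 1) =o[atTop] fun x : ℝ => Real.exp ((1 / 1000 : ℝ) * x) :=
      isLittleO_pow_exp_pos_mul_atTop 1 (by norm_num)
    have e2 := e1.def (show (0 : ℝ) < 1 by norm_num)
    filter_upwards [e2, eventually_ge_atTop (1 : ℝ)] with L h3 h4
    rw [pow_one, Real.norm_of_nonneg (by positivity), Real.norm_of_nonneg (Real.exp_pos _).le] at h3
    have e3 : (1 / 1000 : ℝ) * L = L / 1000 := by ring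
    rw [e3] at h3
    linarith
  have h6 : ∀ᶠ L : ℝ in atTop, 1 ≤ Real.log L := Real.tendsto_log_atTop.eventually_ge_atTop 1
  obtain ⟨L₀, h⟩ := eventually_atTop.mp (h2.and (h5.and (h6.and (eventually_ge_atTop (1000 : ℝ)))))
  refine ⟨L₀, fun L hL => ?_⟩
  obtain ⟨g2, g5, g6, g1⟩ := h L hL
  refine ⟨g1, ?_, ?_, g6, g5⟩
  · have e1 : Real.exp (L / 10) = Real.exp (L / 1000) * Real.exp (99 * L / 1000) := by
      rw [← Real.exp_add]; congr 1; ring
    have e2 : Real.exp (L / 100) ≤ Real.exp (99 * L / 1000) := by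
      apply Real.exp_le_exp.mpr; linarith
    have e3 : (1 : ℝ) ≤ Real.exp (L / 1000) := Real.one_le_exp (by positivity)
    have e4 : (3 * L ^ 2 + 1) * Real.exp (L / 1000) ≤
        Real.exp (99 * L / 1000) * Real.exp (L / 1000) :=
      mul_le_mul_of_nonneg_right (g2.trans e2) (Real.exp_pos _).le
    rw [e1]
    nlinarith
  · have := Real.log_le_sub_one_of_pos (show 0 < L by linarith)
    linarith

theorem card_B_le (S : Finset ℤ) (M u : ℝ) (hM0 : 0 ≤ M)
    (hS : ∀ s ∈ S, ∀ t ∈ S, s ≠ t → Real.log ((s - t).natAbs : ℝ) ≤ M * Real.log 2)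
    (hu : (S.card : ℝ) ≤ u) :
    (((S ×ˢ S).biUnion (fun x => (x.1 - x.2).natAbs.primeFactors)).card : ℝ) ≤ u ^ 2 * M := by
  have h1 : (((S ×ˢ S).biUnion (fun x => (x.1 - x.2).natAbs.primeFactors)).card : ℝ) ≤
      ∑ x ∈ S ×ˢ S, ((x.1 - x.2).natAbs.primeFactors.card : ℝ) := by
    exact_mod_cast Finset.card_biUnion_le
  have hl2 : 0 < Real.log 2 := Real.log_pos (by norm_num)
  have h2 : ∑ x ∈ S ×ˢ S, ((x.1 - x.2).natAbs.primeFactors.card : ℝ) ≤ ∑ _x ∈ S ×ˢ S, M := by
    apply Finset.sum_le_sum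
    rintro ⟨s, t⟩ hx
    rw [Finset.mem_product] at hx
    by_cases hst : s = t
    · simp [hst, hM0]
    · have h3 := hS s hx.1 t hx.2 hst
      rcases card_primeFactors_le (s - t).natAbs with h4 | h4
      · exact le_of_mul_le_mul_right (h4.trans h3) hl2
      · exfalso
        rw [Int.natAbs_eq_zero] at h4
        omega
  rw [Finset.sum_const, Finset.card_product, nsmul_eq_mul] at h2
  have h5 : ((S.card * S.card : ℕ) : ℝ) * M ≤ u ^ 2 * M := by
    apply mul_le_mul_of_nonneg_right _ hM0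
    push_cast
    have h0 : (0 : ℝ) ≤ (S.card : ℝ) := Nat.cast_nonneg _
    nlinarith
  linarith

theorem card_near (z w s : ℤ) (R : ℝ) (hR : 0 ≤ R) :
    (((Ioc z w).filter (fun n => |((n + s : ℤ) : ℝ)| ≤ R)).card : ℝ) ≤ 2 * R + 1 := by
  have h1 : (Ioc z w).filter (fun n => |((n + s : ℤ) : ℝ)| ≤ R) ⊆ Icc (-s - ⌊R⌋) (-s + ⌊R⌋) := by
    intro n hn
    rw [Finset.mem_filter] at hn
    have h2 := abs_le.mp hn.2
    rw [Finset.mem_Icc]
    have h3 : n + s ≤ ⌊R⌋ := Int.le_floor.mpr h2.2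
    have h4 : -(n + s) ≤ ⌊R⌋ := Int.le_floor.mpr (by push_cast at h2 ⊢; linarith)
    constructor <;> linarith
  have h2 := Finset.card_le_card h1
  rw [Int.card_Icc] at h2
  have h3 : (((Ioc z w).filter (fun n => |((n + s : ℤ) : ℝ)| ≤ R)).card : ℤ) ≤ 2 * ⌊R⌋ + 1 := by
    have hf : 0 ≤ ⌊R⌋ := Int.floor_nonneg.mpr hR
    have : ((-s + ⌊R⌋ + 1 - (-s - ⌊R⌋)).toNat : ℤ) = 2 * ⌊R⌋ + 1 := by
      rw [Int.toNat_of_nonneg (by linarith)]; ring
    rw [← this]
    exact_mod_cast h2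
  have h4 : (((Ioc z w).filter (fun n => |((n + s : ℤ) : ℝ)| ≤ R)).card : ℝ) ≤
      2 * (⌊R⌋ : ℝ) + 1 := by exact_mod_cast h3
  have h5 := Int.floor_le R
  linarith

/-- Every set of at most `c log X log log X` integers has a prime-free translate by an element of
any interval of length `X`. -/
theorem universal (A : ℕ) : ∃ c : ℝ, 0 < c ∧ ∃ X₀ : ℝ, ∀ X : ℝ, X₀ ≤ X → ∀ S : Finset ℤ,
    (∀ s ∈ S, |(s : ℝ)| ≤ Real.exp ((Real.log X) ^ A)) →
    (S.card : ℝ) ≤ c * (Real.log X * Real.log (Real.log X)) →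
    ∀ z : ℤ, ∃ n : ℤ, z < n ∧ (n : ℝ) ≤ z + X ∧
      ∀ s ∈ S, ∃ p : ℕ, p.Prime ∧ (p : ℝ) ≤ X ^ (1 / 1000 : ℝ) ∧ (p : ℤ) ∣ n + s ∧
        (p : ℝ) < |((n + s : ℤ) : ℝ)| := by
  obtain ⟨c₁, hc₁, X₁, hcov⟩ := covering_gen (A + 4) (by omega)
  obtain ⟨C, hC, hmert⟩ := mertens_tot
  obtain ⟨L₀, hev⟩ := ev A
  set c : ℝ := min 1 (min 1 c₁ / (2 * C)) with hc
  have hc0 : 0 < c := lt_min one_pos (div_pos (lt_min one_pos hc₁) (by positivity))
  have hc1 : c ≤ 1 := min_le_left _ _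
  have hc2 : c ≤ min 1 c₁ / (2 * C) := min_le_right _ _
  refine ⟨c, hc0, max X₁ (Real.exp L₀), ?_⟩
  intro X hX S hS hcard z
  have hX1 : X₁ ≤ X := (le_max_left _ _).trans hX
  have hX2 : Real.exp L₀ ≤ X := (le_max_right _ _).trans hX
  have hXpos : 0 < X := lt_of_lt_of_le (Real.exp_pos _) hX2
  obtain ⟨L, hL⟩ : ∃ L, L = Real.log X := ⟨_, rfl⟩
  have hXL : X = Real.exp L := by rw [hL, Real.exp_log hXpos]
  have hL0 : L₀ ≤ L := by
    rw [hL, ← Real.log_exp L₀]
    exact Real.log_le_log (Real.exp_pos _) hX2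
  obtain ⟨g1, g2, g3, g4, g5⟩ := hev L hL0
  have hXr : ∀ s : ℝ, X ^ s = Real.exp (s * L) := by
    intro s
    rw [hXL, ← Real.exp_mul, mul_comm]
  have hcovX := hcov X hX1
  rw [← hL] at hcard hS hcovX
  have hLpos : 0 < L := by linarith
  obtain ⟨R, hR⟩ : ∃ R, R = X ^ (1 / 1000 : ℝ) := ⟨_, rfl⟩
  have hRe : R = Real.exp (L / 1000) := by rw [hR, hXr]; congr 1; ring
  have hR1 : 1 ≤ R := by rw [hRe]; exact Real.one_le_exp (by positivity)
  have hRL : L ≤ R := by rw [hRe]; exact g5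
  rw [← hR] at hcovX ⊢
  -- the number of elements
  have hcardL : (S.card : ℝ) ≤ L ^ 2 := by
    refine hcard.trans ?_
    calc c * (L * Real.log L) ≤ 1 * (L * L) := by
          apply mul_le_mul hc1 _ (by positivity) (by norm_num)
          exact mul_le_mul_of_nonneg_left g3 hLpos.le
      _ = L ^ 2 := by ring
  -- the primorial
  obtain ⟨N, hN⟩ : ∃ N : ℕ, N = ⌊L / 10⌋₊ := ⟨_, rfl⟩
  have hN1 : (N : ℝ) ≤ L / 10 := by rw [hN]; exact Nat.floor_le (by positivity)
  have hN2 : L / 10 - 1 < N := by rw [hN]; exact Nat.sub_one_lt_floor _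
  have hN3 : 3 ≤ N := by
    have : (3 : ℝ) < (N : ℝ) + 1 := by linarith
    have h' : (3 : ℕ) < N + 1 := by exact_mod_cast this
    omega
  obtain ⟨P, hP⟩ : ∃ P : ℕ, P = primorial N := ⟨_, rfl⟩
  have hPpos : 0 < P := by rw [hP]; exact primorial_pos N
  have hPle : (P : ℝ) ≤ Real.exp (14 * L / 100) := by
    have h1 : (P : ℝ) ≤ 4 ^ N := by rw [hP]; exact_mod_cast primorial_le_four_pow N
    have h2 : (4 : ℝ) ^ N = Real.exp (N * Real.log 4) := by
      rw [← Real.log_pow, Real.exp_log (by positivity)]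
    have h3 : Real.log 4 ≤ 1.4 := by
      have e : (4 : ℝ) = 2 ^ 2 := by norm_num
      rw [e, Real.log_pow]
      have := Real.log_two_lt_d9
      push_cast
      linarith
    have h4 : (N : ℝ) * Real.log 4 ≤ 14 * L / 100 := by
      have h0 : (0 : ℝ) ≤ (N : ℝ) := Nat.cast_nonneg _
      have h0' : 0 ≤ Real.log 4 := Real.log_nonneg (by norm_num)
      nlinarith
    rw [h2] at h1
    exact h1.trans (Real.exp_le_exp.mpr h4)
  -- the class modulo `P`
  obtain ⟨a₀, ha₀⟩ := exists_class P hPpos S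
  obtain ⟨S', hS'⟩ : ∃ S', S' = S.filter (fun s => Int.gcd (a₀ + s) P = 1) := ⟨_, rfl⟩
  rw [← hS'] at ha₀
  have hlogN : Real.log L / 2 ≤ Real.log N := by
    have h1 : Real.log L / 2 = Real.log (Real.sqrt L) := by rw [Real.log_sqrt hLpos.le]
    rw [h1]
    apply Real.log_le_log (Real.sqrt_pos.mpr hLpos)
    have h2 : Real.sqrt L ≤ L / 10 - 1 := by
      rw [Real.sqrt_le_left (by linarith)]
      nlinarith
    linarith
  have hS'card : (S'.card : ℝ) ≤ min 1 c₁ * L := by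
    have h1 := hmert N hN3
    rw [← hP] at h1
    have hPR : (0 : ℝ) < P := by exact_mod_cast hPpos
    have hlN : 0 < Real.log N := by linarith
    have h2 : (S'.card : ℝ) * P ≤ (S.card : ℝ) * (C / Real.log N) * P := by
      calc (S'.card : ℝ) * P ≤ (S.card : ℝ) * Nat.totient P := ha₀
        _ ≤ (S.card : ℝ) * (C / Real.log N * P) :=
            mul_le_mul_of_nonneg_left h1 (Nat.cast_nonneg _)
        _ = _ := by ring
    have h3 : (S'.card : ℝ) ≤ (S.card : ℝ) * (C / Real.log N) := le_of_mul_le_mul_right h2 hPR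
    have h4 : C / Real.log N ≤ 2 * C / Real.log L := by
      rw [div_le_div_iff₀ hlN (by linarith)]
      nlinarith
    calc (S'.card : ℝ) ≤ (S.card : ℝ) * (C / Real.log N) := h3
      _ ≤ (c * (L * Real.log L)) * (2 * C / Real.log L) :=
          mul_le_mul hcard h4 (by positivity) (by positivity)
      _ = c * (2 * C) * L := by
          have : Real.log L ≠ 0 := by linarith
          field_simp
      _ ≤ (min 1 c₁ / (2 * C)) * (2 * C) * L := by
          apply mul_le_mul_of_nonneg_right _ hLpos.le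
          exact mul_le_mul_of_nonneg_right hc2 (by positivity)
      _ = min 1 c₁ * L := by
          have : C ≠ 0 := hC.ne'
          field_simp
  have hS'1 : (S'.card : ℝ) ≤ L := by
    refine hS'card.trans ?_
    calc min 1 c₁ * L ≤ 1 * L := mul_le_mul_of_nonneg_right (min_le_left _ _) hLpos.le
      _ = L := one_mul L
  have hS'2 : (S'.card : ℝ) ≤ c₁ * L :=
    hS'card.trans (mul_le_mul_of_nonneg_right (min_le_right _ _) hLpos.le)
  have hsub : ∀ s ∈ S', s ∈ S := fun s hs => by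
    rw [hS'] at hs
    exact (Finset.mem_filter.mp hs).1
  -- the exceptional primes
  obtain ⟨B, hB⟩ : ∃ B : Finset ℕ,
    B = (S' ×ˢ S').biUnion (fun x => (x.1 - x.2).natAbs.primeFactors) := ⟨_, rfl⟩
  have hLA : (1 : ℝ) ≤ L ^ A := one_le_pow₀ (by linarith)
  have hBcard : 2 * (B.card : ℝ) ≤ L ^ (A + 4) := by
    have h1 : (B.card : ℝ) ≤ L ^ 2 * (4 * L ^ A) := by
      rw [hB]
      apply card_B_le S' (4 * L ^ A) L (by positivity) _ hS'1
      intro s hs t ht hst
      have hs' := hS s (hsub s hs)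
      have ht' := hS t (hsub t ht)
      have h2 : ((s - t).natAbs : ℝ) ≤ 2 * Real.exp (L ^ A) := by
        have : ((s - t).natAbs : ℝ) = |(s : ℝ) - t| := by
          rw [← Int.cast_natCast, Int.natCast_natAbs]
          push_cast
          rfl
        rw [this]
        have := abs_sub (s : ℝ) (t : ℝ)
        linarith
      have h3 : (0 : ℝ) < ((s - t).natAbs : ℝ) := by
        have : (s - t).natAbs ≠ 0 := by
          rw [Int.natAbs_ne_zero]; omega
        exact_mod_cast Nat.pos_of_ne_zero this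
      have h4 := Real.log_le_log h3 h2
      rw [Real.log_mul (by norm_num) (Real.exp_pos _).ne', Real.log_exp] at h4
      have h5 := Real.log_two_gt_d9
      nlinarith
    have h6 : L ^ (A + 4) = L ^ 2 * L ^ A * L ^ 2 := by ring
    have h7 : (8 : ℝ) ≤ L ^ 2 := by nlinarith
    have h8 : 0 ≤ L ^ 2 * L ^ A := by positivity
    rw [h6]
    nlinarith
  -- the set of candidates
  obtain ⟨w, hw⟩ : ∃ w : ℤ, w = z + ⌊X⌋ := ⟨_, rfl⟩
  have hwX : (w : ℝ) ≤ z + X := by
    rw [hw]; push_cast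
    have := Int.floor_le X
    linarith
  have hwX' : z + X - 1 ≤ (w : ℝ) := by
    rw [hw]; push_cast
    have := Int.lt_floor_add_one X
    linarith
  have hXbig : 2 ≤ X := by
    rw [hXL]
    have := Real.add_one_le_exp L
    linarith
  have hzw : z ≤ w := by
    have : (z : ℝ) ≤ w := by linarith
    exact_mod_cast this
  obtain ⟨𝒜₀, h𝒜₀⟩ : ∃ 𝒜₀ : Finset ℤ, 𝒜₀ = (Ioc z w).filter (fun x => (P : ℤ) ∣ x - a₀) := ⟨_, rfl⟩
  obtain ⟨𝒜, h𝒜⟩ : ∃ 𝒜 : Finset ℤ, 𝒜 = 𝒜₀.filter (fun x => ∀ s ∈ S, R < |((x + s : ℤ) : ℝ)|) :=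
    ⟨_, rfl⟩
  have hres := hcovX B hBcard {s // s ∈ S'} (by
      rw [Fintype.card_coe]
      exact hS'2) (fun _ k => -(k : ℤ)) (by
      intro p hp hp1 hp2 hpB k l hkl hdvd
      apply hpB
      rw [hB, Finset.mem_biUnion]
      refine ⟨((k : ℤ), (l : ℤ)), Finset.mem_product.mpr ⟨k.2, l.2⟩, ?_⟩
      have hne : (k : ℤ) - l ≠ 0 := by
        intro h
        apply hkl
        apply Subtype.ext
        omega
      rw [Nat.mem_primeFactors]
      refine ⟨hp, ?_, Int.natAbs_ne_zero.mpr hne⟩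
      have e : (k : ℤ) - l = -(-(k : ℤ) - -(l : ℤ)) := by ring
      rw [← Int.natCast_dvd, e]
      exact (dvd_neg).mpr hdvd) 𝒜 (((w : ℝ) - z) / P) (X ^ (1 / 10 : ℝ)) (by
      have hPR : (0 : ℝ) < P := by exact_mod_cast hPpos
      rw [le_div_iff₀ hPR, hXr]
      have h1 : Real.exp (1 / 2 * L) * P ≤ Real.exp (1 / 2 * L) * Real.exp (14 * L / 100) :=
        mul_le_mul_of_nonneg_left hPle (Real.exp_pos _).le
      have h2 : Real.exp (1 / 2 * L) * Real.exp (14 * L / 100) = Real.exp (64 * L / 100) := by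
        rw [← Real.exp_add]; congr 1; ring
      have h3 : X = Real.exp (64 * L / 100) * Real.exp (36 * L / 100) := by
        rw [hXL, ← Real.exp_add]; congr 1; ring
      have h4 : (2 : ℝ) ≤ Real.exp (36 * L / 100) := by
        have := Real.add_one_le_exp (36 * L / 100)
        linarith
      have h5 : 0 < Real.exp (64 * L / 100) := Real.exp_pos _
      have h6 : 2 * Real.exp (64 * L / 100) ≤ X := by rw [h3]; nlinarith
      have h7 : 1 ≤ Real.exp (64 * L / 100) := Real.one_le_exp (by positivity)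
      linarith) (Real.rpow_nonneg hXpos.le _) le_rfl (by
      intro q hq _ hqp r
      have hqpos : 0 < q := Nat.pos_of_ne_zero hq.ne_zero
      have hcop : Nat.Coprime P q := by
        rw [Nat.coprime_iff_gcd_eq_one]
        by_contra hne
        obtain ⟨p, hp, hpd⟩ := Nat.exists_prime_and_dvd hne
        have hpP : p ∣ P := hpd.trans (Nat.gcd_dvd_left _ _)
        have hpq : p ∣ q := hpd.trans (Nat.gcd_dvd_right _ _)
        have h1 := (hqp p (Nat.mem_primeFactors.mpr ⟨hp, hpq, hqpos.ne'⟩)).1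
        have h2 : p ∈ P.primeFactors := Nat.mem_primeFactors.mpr ⟨hp, hpP, hPpos.ne'⟩
        rw [hP, primeFactors_primorial, Finset.mem_filter, Finset.mem_Icc] at h2
        have h3 : (p : ℝ) ≤ N := by exact_mod_cast h2.1.2
        have h4 : L ≤ L ^ (A + 4) := by
          calc L = L ^ 1 := (pow_one L).symm
            _ ≤ L ^ (A + 4) := pow_le_pow_right₀ (by linarith) (by omega)
        linarith
      have h1 := count_two z w hzw P q hPpos hqpos hcop a₀ r
      rw [← h𝒜₀] at h1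
      -- the removed elements
      have h2 : ((𝒜.filter (fun x => (q : ℤ) ∣ x - r)).card : ℝ) ≤
          ((𝒜₀.filter (fun x => (q : ℤ) ∣ x - r)).card : ℝ) := by
        have : 𝒜.filter (fun x => (q : ℤ) ∣ x - r) ⊆ 𝒜₀.filter (fun x => (q : ℤ) ∣ x - r) := by
          apply Finset.filter_subset_filter
          rw [h𝒜]
          exact Finset.filter_subset _ _
        exact_mod_cast Finset.card_le_card this
      have h3 : ((𝒜₀.filter (fun x => (q : ℤ) ∣ x - r)).card : ℝ) ≤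
          ((𝒜.filter (fun x => (q : ℤ) ∣ x - r)).card : ℝ) + L ^ 2 * (2 * R + 1) := by
        have hsub2 : 𝒜₀.filter (fun x => (q : ℤ) ∣ x - r) ⊆
            𝒜.filter (fun x => (q : ℤ) ∣ x - r) ∪
              S.biUnion (fun s => (Ioc z w).filter (fun x => |((x + s : ℤ) : ℝ)| ≤ R)) := by
          intro x hx
          rw [Finset.mem_filter] at hx
          rw [Finset.mem_union, Finset.mem_filter, Finset.mem_biUnion]
          by_cases hxs : ∀ s ∈ S, R < |((x + s : ℤ) : ℝ)|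
          · left
            rw [h𝒜, Finset.mem_filter]
            exact ⟨⟨hx.1, hxs⟩, hx.2⟩
          · right
            push Not at hxs
            obtain ⟨s, hs, hxs⟩ := hxs
            refine ⟨s, hs, ?_⟩
            rw [Finset.mem_filter]
            refine ⟨?_, hxs⟩
            have := hx.1
            rw [h𝒜₀, Finset.mem_filter] at this
            exact this.1
        have h4 := (Finset.card_le_card hsub2).trans (Finset.card_union_le _ _)
        have h5 : ((S.biUnion (fun s => (Ioc z w).filter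
            (fun x => |((x + s : ℤ) : ℝ)| ≤ R))).card : ℝ) ≤ L ^ 2 * (2 * R + 1) := by
          have h6 : ((S.biUnion (fun s => (Ioc z w).filter
              (fun x => |((x + s : ℤ) : ℝ)| ≤ R))).card : ℝ) ≤
              ∑ s ∈ S, (((Ioc z w).filter (fun x => |((x + s : ℤ) : ℝ)| ≤ R)).card : ℝ) := by
            exact_mod_cast Finset.card_biUnion_le
          have h7 : ∑ s ∈ S, (((Ioc z w).filter (fun x => |((x + s : ℤ) : ℝ)| ≤ R)).card : ℝ) ≤
              ∑ _s ∈ S, (2 * R + 1) :=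
            Finset.sum_le_sum (fun s _ => card_near z w s R (by linarith))
          rw [Finset.sum_const, nsmul_eq_mul] at h7
          have h8 : (S.card : ℝ) * (2 * R + 1) ≤ L ^ 2 * (2 * R + 1) :=
            mul_le_mul_of_nonneg_right hcardL (by linarith)
          linarith
        have h9 : ((𝒜₀.filter (fun x => (q : ℤ) ∣ x - r)).card : ℝ) ≤
            ((𝒜.filter (fun x => (q : ℤ) ∣ x - r)).card : ℝ) +
            ((S.biUnion (fun s => (Ioc z w).filter
              (fun x => |((x + s : ℤ) : ℝ)| ≤ R))).card : ℝ) := by exact_mod_cast h4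
        linarith
      have h10 : X ^ (1 / 10 : ℝ) = Real.exp (L / 10) := by rw [hXr]; congr 1; ring
      have h11 : L ^ 2 * (2 * R + 1) + 1 ≤ X ^ (1 / 10 : ℝ) := by
        rw [h10]
        refine le_trans ?_ g2
        rw [← hRe]
        nlinarith [sq_nonneg L]
      rw [abs_le] at h1 ⊢
      constructor <;> linarith [h1.1, h1.2])
  obtain ⟨x, hx, hxk⟩ := hres
  rw [h𝒜, Finset.mem_filter, h𝒜₀, Finset.mem_filter, Finset.mem_Ioc] at hx
  obtain ⟨⟨⟨hx1, hx2⟩, hx3⟩, hx4⟩ := hx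
  refine ⟨x, hx1, ?_, fun s hs => ?_⟩
  · have : (x : ℝ) ≤ w := by exact_mod_cast hx2
    linarith
  by_cases hsS' : s ∈ S'
  · obtain ⟨p, hp, _, hpR, _, hpd⟩ := hxk ⟨s, hsS'⟩
    refine ⟨p, hp, hpR, ?_, lt_of_le_of_lt hpR (hx4 s hs)⟩
    have e : x + s = x - -(s : ℤ) := by ring
    rw [e]
    exact hpd
  · have hg : Int.gcd (a₀ + s) P ≠ 1 := by
      intro h
      apply hsS'
      rw [hS', Finset.mem_filter]
      exact ⟨hs, h⟩
    obtain ⟨p, hp, hpd⟩ := Nat.exists_prime_and_dvd hg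
    have hp1 : (p : ℤ) ∣ a₀ + s := (Int.natCast_dvd_natCast.mpr hpd).trans (Int.gcd_dvd_left _ _)
    have hp2 : (p : ℤ) ∣ (P : ℤ) := (Int.natCast_dvd_natCast.mpr hpd).trans (Int.gcd_dvd_right _ _)
    have hpP : p ∣ P := Int.natCast_dvd_natCast.mp hp2
    have h2 : p ∈ P.primeFactors := Nat.mem_primeFactors.mpr ⟨hp, hpP, hPpos.ne'⟩
    rw [hP, primeFactors_primorial, Finset.mem_filter, Finset.mem_Icc] at h2
    have h3 : (p : ℝ) ≤ N := by exact_mod_cast h2.1.2
    have hpR : (p : ℝ) ≤ R := by linarith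
    refine ⟨p, hp, hpR, ?_, lt_of_le_of_lt hpR (hx4 s hs)⟩
    have e : x + s = (x - a₀) + (a₀ + s) := by ring
    rw [e]
    exact dvd_add (hp2.trans hx3) hp1

end Pool.Agent.H454R3.UC
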